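import Mathlib

/-!
# Circular mixing threshold versus circular chromatic number

The cone over the Moser spindle (a graph with 8 vertices and 18 edges) has circular chromatic number
`5` and circular mixing threshold `5`.
-/

set_option autoImplicit false

namespace Pool.Agent.Results.MP_3baeb2_co.ConeOverSpindle

/-- `(k, q)`-colourings of `G`. -/
def IsColouring {V : Type} (G : SimpleGraph V) (k q : ℕ) (f : V → ℕ) : Prop :=
  (∀ v, f v < k) ∧ ∀ u v, G.Adj u v →
    (q : ℤ) ≤ |(f u : ℤ) - f v| ∧ |(f u : ℤ) - f v| ≤ (k : ℤ) - q

/-- One step: `f` and `g` are `(k, q)`-colourings which differ in at most one vertex. -/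
def Step {V : Type} (G : SimpleGraph V) (k q : ℕ) (f g : V → ℕ) : Prop :=
  IsColouring G k q f ∧ IsColouring G k q g ∧ ∃ v, ∀ w, w ≠ v → f w = g w

/-- `G` is `(k, q)`-mixing: any `(k, q)`-colouring can be transformed into any other by recolouring
one vertex at a time through `(k, q)`-colourings. -/
def IsMixing {V : Type} (G : SimpleGraph V) (k q : ℕ) : Prop :=
  ∀ f g, IsColouring G k q f → IsColouring G k q g → Relation.ReflTransGen (Step G k q) f g

/-- The circular chromatic number. -/
noncomputable def circularChromaticNumber {V : Type} (G : SimpleGraph V) : ℝ :=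
  sInf {x : ℝ | ∃ k q : ℕ, 0 < k ∧ 0 < q ∧ x = k / q ∧ ∃ f, IsColouring G k q f}

/-- The circular mixing threshold: the infimum of the rationals `r` such that `G` is
`(k, q)`-mixing for all positive integers `k, q` with `k / q ≥ r`. -/
noncomputable def circularMixingThreshold {V : Type} (G : SimpleGraph V) : ℝ :=
  sInf {x : ℝ | ∃ r : ℚ, x = r ∧
    ∀ k q : ℕ, 0 < k → 0 < q → r ≤ (k : ℚ) / q → IsMixing G k q}

/-- The edges of the Moser spindle: two rhombi `0, 2, 6, 1` and `0, 4, 5, 3` sharing the vertex `0`,
and the edge `1 3`. -/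
def edges : List (Fin 7 × Fin 7) :=
  [(0, 2), (0, 4), (0, 5), (0, 6), (1, 2), (1, 3), (1, 6), (2, 6), (3, 4), (3, 5), (4, 5)]

/-- The Moser spindle. -/
def spindle : SimpleGraph (Fin 7) where
  Adj x y := (x, y) ∈ edges ∨ (y, x) ∈ edges
  symm := ⟨by decide⟩
  loopless := ⟨by decide⟩

instance : DecidableRel spindle.Adj := fun x y =>
  inferInstanceAs (Decidable ((x, y) ∈ edges ∨ (y, x) ∈ edges))

/-- The cone over `H`: a new vertex `none` adjacent to all the vertices of `H`. -/
def cone {V : Type} (H : SimpleGraph V) : SimpleGraph (Option V) where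
  Adj x y := match x, y with
    | none, none => False
    | none, some _ => True
    | some _, none => True
    | some u, some v => H.Adj u v
  symm := ⟨by
    intro x y h
    match x, y with
    | none, none => exact h
    | none, some _ => trivial
    | some _, none => trivial
    | some u, some v => exact H.symm.symm _ _ h⟩
  loopless := ⟨by
    intro x h
    match x with
    | none => exact h
    | some u => exact H.loopless.irrefl u h⟩

/-! ### Ordinary colourings of the spindle -/

/-- proper colourings of the spindle with colours `< j` -/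
def PJ (j : ℕ) (h : Fin 7 → ℕ) : Prop := (∀ v, h v < j) ∧ ∀ u v, spindle.Adj u v → h u ≠ h v

def StepJ (j : ℕ) (f g : Fin 7 → ℕ) : Prop := PJ j f ∧ PJ j g ∧ ∃ v, ∀ w, w ≠ v → f w = g w

theorem StepJ.symm {j : ℕ} {f g : Fin 7 → ℕ} (h : StepJ j f g) : StepJ j g f := by
  obtain ⟨h1, h2, v, h3⟩ := h
  exact ⟨h2, h1, v, fun w hw => (h3 w hw).symm⟩

theorem reach_symm {j : ℕ} {f g : Fin 7 → ℕ} (h : Relation.ReflTransGen (StepJ j) f g) :
    Relation.ReflTransGen (StepJ j) g f := by
  induction h with
  | refl => exact .refl
  | tail _ h ih => exact .head h.symm ih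

theorem PJ_update {j : ℕ} {h : Fin 7 → ℕ} (hh : PJ j h) {v : Fin 7} {c : ℕ} (hc : c < j)
    (hv : ∀ w, spindle.Adj v w → h w ≠ c) : PJ j (Function.update h v c) := by
  refine ⟨fun w => ?_, fun u w huw => ?_⟩
  · by_cases hw : w = v
    · subst hw; simpa using hc
    · simpa [hw] using hh.1 w
  · by_cases hu : u = v
    · subst hu
      have hw : w ≠ u := huw.ne'
      simpa [hw] using (hv w huw).symm
    · by_cases hw : w = v
      · subst hw
        simpa [hu] using hv u huw.symm
      · simpa [hu, hw] using hh.2 u w huw

theorem step_update {j : ℕ} {h : Fin 7 → ℕ} (hh : PJ j h) {v : Fin 7} {c : ℕ} (hc : c < j)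
    (hv : ∀ w, spindle.Adj v w → h w ≠ c) : StepJ j h (Function.update h v c) :=
  ⟨hh, PJ_update hh hc hv, v, fun w hw => by simp [hw]⟩

theorem three_nbrs (v : Fin 7) : v ≠ 0 →
    ∃ a b c : Fin 7, ∀ w, spindle.Adj v w → w = a ∨ w = b ∨ w = c := by
  revert v; decide

theorem free_colour (x y z : ℕ) : ∃ c < 4, c ≠ x ∧ c ≠ y ∧ c ≠ z := by
  by_contra h
  push Not at h
  have h0 := h 0 (by norm_num)
  have h1 := h 1 (by norm_num)
  have h2 := h 2 (by norm_num)
  have h3 := h 3 (by norm_num)
  omega

theorem stage1 {j : ℕ} (hj : 4 ≤ j) : ∀ (n : ℕ) (h : Fin 7 → ℕ), PJ j h →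
    (Finset.univ.filter fun v => v ≠ 0 ∧ 4 ≤ h v).card = n →
    ∃ h', PJ j h' ∧ (∀ v, v ≠ 0 → h' v < 4) ∧ Relation.ReflTransGen (StepJ j) h h' := by
  intro n
  induction n using Nat.strong_induction_on with
  | _ n ih =>
    intro h hh hn
    by_cases hall : ∀ v, v ≠ 0 → h v < 4
    · exact ⟨h, hh, hall, .refl⟩
    · push Not at hall
      obtain ⟨v, hv0, hv⟩ := hall
      obtain ⟨a, b, c, habc⟩ := three_nbrs v hv0
      obtain ⟨d, hd, hda, hdb, hdc⟩ := free_colour (h a) (h b) (h c)
      have hs : StepJ j h (Function.update h v d) := by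
        refine step_update hh (by omega) fun w hw => ?_
        rcases habc w hw with rfl | rfl | rfl
        · exact hda.symm
        · exact hdb.symm
        · exact hdc.symm
      have hlt : (Finset.univ.filter fun w => w ≠ 0 ∧ 4 ≤ Function.update h v d w).card < n := by
        rw [← hn]
        apply Finset.card_lt_card
        refine ⟨fun w hw => ?_, fun hsub => ?_⟩
        · simp only [Finset.mem_filter, Finset.mem_univ, true_and] at hw ⊢
          refine ⟨hw.1, ?_⟩
          by_cases hwv : w = v
          · subst hwv; exact hv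
          · simpa [hwv] using hw.2
        · have := hsub (show v ∈ _ by simp [hv0, hv])
          simp only [Finset.mem_filter, Finset.mem_univ, true_and, Function.update_self] at this
          omega
      obtain ⟨h', h1, h2, h3⟩ := ih _ hlt _ hs.2.1 rfl
      exact ⟨h', h1, h2, .head hs h3⟩

theorem nbrs_zero (w : Fin 7) : spindle.Adj 0 w → w = 2 ∨ w = 6 ∨ w = 4 ∨ w = 5 := by
  revert w; decide

theorem nbrs_two (w : Fin 7) : spindle.Adj 2 w → w = 0 ∨ w = 6 ∨ w = 1 := by
  revert w; decide

theorem stage2 {j : ℕ} (hj : 4 ≤ j) (h : Fin 7 → ℕ) (hh : PJ j h) (h4 : ∀ v, v ≠ 0 → h v < 4) :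
    ∃ h', PJ j h' ∧ (∀ v, h' v < 4) ∧ Relation.ReflTransGen (StepJ j) h h' := by
  by_cases h0 : h 0 < 4
  · refine ⟨h, hh, fun v => ?_, .refl⟩
    by_cases hv : v = 0
    · subst hv; exact h0
    · exact h4 v hv
  · have b2 := h4 2 (by decide)
    have b6 := h4 6 (by decide)
    have b4 := h4 4 (by decide)
    have b5 := h4 5 (by decide)
    have b1 := h4 1 (by decide)
    by_cases hfree : ∃ c < 4, h 2 ≠ c ∧ h 6 ≠ c ∧ h 4 ≠ c ∧ h 5 ≠ c
    · obtain ⟨c, hc, c2, c6, c4, c5⟩ := hfree
      have hs : StepJ j h (Function.update h 0 c) := by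
        refine step_update hh (by omega) fun w hw => ?_
        rcases nbrs_zero w hw with rfl | rfl | rfl | rfl <;> assumption
      refine ⟨_, hs.2.1, fun v => ?_, .single hs⟩
      by_cases hv : v = 0
      · subst hv; simpa using hc
      · simpa [hv] using h4 v hv
    · push Not at hfree
      have f0 := hfree 0 (by norm_num)
      have f1 := hfree 1 (by norm_num)
      have f2 := hfree 2 (by norm_num)
      have f3 := hfree 3 (by norm_num)
      have hdist : h 2 ≠ h 6 ∧ h 2 ≠ h 4 ∧ h 2 ≠ h 5 ∧ h 6 ≠ h 4 ∧ h 6 ≠ h 5 ∧ h 4 ≠ h 5 := by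
        omega
      obtain ⟨d26, d24, d25, d64, d65, d45⟩ := hdist
      obtain ⟨c, hc, hc1⟩ : ∃ c, (c = h 4 ∨ c = h 5) ∧ c ≠ h 1 := by
        by_cases h14 : h 4 = h 1
        · exact ⟨h 5, Or.inr rfl, by rw [← h14]; exact d45.symm⟩
        · exact ⟨h 4, Or.inl rfl, h14⟩
      have hc4 : c < 4 := by rcases hc with rfl | rfl <;> assumption
      have hs : StepJ j h (Function.update h 2 c) := by
        refine step_update hh (by omega) fun w hw => ?_
        rcases nbrs_two w hw with rfl | rfl | rfl
        · omega
        · rcases hc with rfl | rfl <;> assumption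
        · exact hc1.symm
      have hs2 : StepJ j (Function.update h 2 c) (Function.update (Function.update h 2 c) 0 (h 2)) := by
        refine step_update hs.2.1 (by omega) fun w hw => ?_
        rcases nbrs_zero w hw with rfl | rfl | rfl | rfl
        · simp only [Function.update_self]
          rcases hc with rfl | rfl
          · exact d24.symm
          · exact d25.symm
        · simpa using d26.symm
        · simpa using d24.symm
        · simpa using d25.symm
      refine ⟨_, hs2.2.1, fun v => ?_, .head hs (.single hs2)⟩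
      by_cases hv : v = 0
      · subst hv; simpa using b2
      · by_cases hv2 : v = 2
        · subst hv2; simpa using hc4
        · simpa [hv, hv2] using h4 v hv

/-- digits in base 4 -/
def dig (c v : ℕ) : ℕ := c / 4 ^ v % 4

def edgesN : List (ℕ × ℕ) :=
  [(0, 2), (0, 4), (0, 5), (0, 6), (1, 2), (1, 3), (1, 6), (2, 6), (3, 4), (3, 5), (4, 5)]

def properC (c : ℕ) : Bool := edgesN.all fun e => dig c e.1 != dig c e.2

def dec (c : ℕ) : Fin 7 → ℕ := fun v => dig c v

theorem properC_iff (c : ℕ) : properC c = true ↔ PJ 4 (dec c) := by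
  constructor
  · intro h
    refine ⟨fun v => Nat.mod_lt _ (by norm_num), ?_⟩
    have h1 : ∀ e ∈ edgesN, dig c e.1 ≠ dig c e.2 := by
      intro e he
      have := List.all_eq_true.mp h e he
      simpa using this
    have h2 : ∀ e ∈ edges, ((e.1 : ℕ), (e.2 : ℕ)) ∈ edgesN := by decide
    intro u v huv
    rcases huv with huv | huv
    · exact h1 _ (h2 _ huv)
    · exact (h1 _ (h2 _ huv)).symm
  · rintro ⟨-, h⟩
    have h2 : ∀ e ∈ edgesN, ∃ u v : Fin 7, (u : ℕ) = e.1 ∧ (v : ℕ) = e.2 ∧ spindle.Adj u v := by
      decide
    refine List.all_eq_true.mpr fun e he => ?_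
    obtain ⟨u, v, hu, hv, huv⟩ := h2 e he
    have := h u v huv
    simp only [dec, hu, hv] at this
    simpa using this

/-- check one entry of the certificate -/
def ok (c c' v R : ℕ) : Bool :=
  R.testBit c && properC c' && (List.range 7).all fun w => w == v || dig c w == dig c' w

def run : List ℕ → ℕ → ℕ
  | [], R => R
  | m :: l, R => run l
    (if ok (m / 8 / 16384) (m / 8 % 16384) (m % 8) R then R ||| 2 ^ (m / 8 % 16384) else R)

theorem run_sound (c0 : ℕ) : ∀ (L : List ℕ) (R : ℕ),
    (∀ c, R.testBit c = true → PJ 4 (dec c) ∧ Relation.ReflTransGen (StepJ 4) (dec c0) (dec c)) →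
    ∀ c, (run L R).testBit c = true →
      PJ 4 (dec c) ∧ Relation.ReflTransGen (StepJ 4) (dec c0) (dec c) := by
  intro L
  induction L with
  | nil => intro R h c hc; exact h c hc
  | cons m L ih =>
    intro R h
    unfold run
    refine ih _ fun c hc => ?_
    split_ifs at hc with hok
    · rw [Nat.testBit_lor, Bool.or_eq_true, Nat.testBit_two_pow] at hc
      rcases hc with hc | hc
      · exact h c hc
      · rw [decide_eq_true_eq] at hc
        unfold ok at hok
        rw [Bool.and_eq_true, Bool.and_eq_true] at hok
        obtain ⟨⟨h1, h2⟩, h3⟩ := hok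
        rw [hc] at h2 h3
        obtain ⟨h4, h5⟩ := h _ h1
        have h6 : PJ 4 (dec c) := (properC_iff c).mp h2
        refine ⟨h6, .tail h5 ⟨h4, h6, ⟨m % 8 % 7, Nat.mod_lt _ (by norm_num)⟩, fun w hw => ?_⟩⟩
        have h7 := List.all_eq_true.mp h3 w (List.mem_range.mpr w.2)
        rw [Bool.or_eq_true] at h7
        rcases h7 with h7 | h7
        · exfalso
          simp only [beq_iff_eq] at h7
          apply hw
          apply Fin.ext
          simp only
          have := w.2
          omega
        · simpa [dec] using h7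
    · exact h c hc

/-- the certificate: numbers `8 (16384 c + c') + v`, where `c` is the code of a 4-colouring which has
been reached, and `c'` is the code of a new one which differs from it only in the vertex `v` -/
def cert : List ℕ :=
  [1403080344, 1403080578, 1403113094, 1403471516, 1403457181, 1407274913, 1407242118,
   1939984065, 1939984130, 1369916059, 1369908893, 1135021211, 1135023772, 1407797667, 870371265,
   870371074, 1941031107, 1942081313, 1353138937, 1235690651, 1235695260, 1126632697, 1168577179,
   1382635940, 1382640037, 871418307, 868273944, 1915869380, 1915873477, 1942604067, 1354711674,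
   1354646270, 1227302137, 1302804096, 1128205434, 1128140030, 1151800057, 1449744808,
   1449736613, 1516858787, 1516859812, 846256580, 846260677, 868665116, 868650781, 1982978755,
   1982970053, 2050091216, 2050093252, 1917442340, 1917446437, 1352614504, 1352581758, 280904409,
   280904570, 1228874874, 1228809470, 1302411138, 1302443654, 1126108217, 1126075518, 54398192,
   54398330, 1153372794, 1153307390, 1449875498, 1449810350, 1315519907, 1315516836, 1533635969,
   1550414248, 913365955, 913357253, 980478416, 980480452, 835109659, 835102493, 600214811,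
   600217372, 1991367297, 1848752336, 1848750276, 2050353234, 2050255062, 2083648195, 1984551208,
   1984543013, 2051665187, 2051666212, 1352358508, 1352360557, 815710809, 815711098, 280381147,
   283001704, 1226777657, 1226744958, 155067632, 155067770, 1306605473, 1306572678, 1839314625,
   1839314690, 1125060155, 589204592, 589204858, 54271220, 54291701, 56495417, 1151275624,
   1151242878, 79565529, 79565690, 1443584105, 1443616814, 376068553, 376068394, 1332297089,
   1533111426, 1533078918, 1550544938, 1550479790, 921754497, 779139536, 779137476, 980740178,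
   980707798, 1014035395, 700884251, 700888860, 633770779, 1990318850, 1990285958, 1849014354,
   1848916182, 2048256049, 439642353, 2092036737, 1850326307, 1850323236, 2068442369, 2085220648,
   1453005421, 1486578795, 1486582380, 815187547, 297160412, 297150173, 282745708, 282747757,
   1225729595, 689874032, 689874298, 154942708, 154952949, 157164857, 769701825, 769701634,
   1841411873, 1133450812, 1133465149, 589077620, 589098101, 121379571, 55447355, 614371929,
   614372218, 79042267, 81662824, 1980487753, 376593355, 373971305, 1331772546, 1331740038,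
   1528917217, 1528949894, 996208016, 996207874, 1544253545, 1544286254, 476737993, 476737834,
   920705794, 920738694, 779401298, 779368918, 974448753, 443836849, 1022423937, 1992416008,
   1453415137, 1846917169, 238303473, 2047732787, 2090988290, 2090955398, 1867103489, 1184570475,
   1494967337, 831966812, 831956573, 330713307, 330698461, 162932432, 162936540, 383392621,
   416965995, 416969580, 1234122300, 1234126397, 689749108, 689759349, 423387891, 156116795,
   1167005224, 1401899067, 656185971, 112990929, 63838012, 63852349, 613848667, 1981012555,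
   384975820, 384965581, 1327578337, 1327611014, 794869136, 794868994, 1530489059, 2065820816,
   996468116, 996445589, 994110817, 2081157193, 477262795, 474640745, 918608737, 1457609608,
   773109873, 242497969, 443313587, 1021375234, 1021408134, 1992540940, 1992530701, 1454987491,
   1846393907, 2064507956, 2064485429, 2093085448, 1554084577, 1192959017, 1493919146,
   1493951534, 865519707, 865504861, 697738832, 697742940, 305547513, 62262992, 162801618,
   162899670, 230043867, 114957675, 425354537, 1301229627, 1368344104, 958194291, 414999249,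
   164509500, 164513597, 1166743466, 1166775854, 1376733305, 647797329, 112466898, 112564950,
   97392424, 332286267, 1989395020, 1989384781, 284313547, 284320717, 116528076, 1329150179,
   1864481936, 795125140, 795123093, 792771937, 1513713892, 1513703653, 2066080916, 2066058389,
   962913171, 593792915, 995682659, 2081681995, 920181091, 1457734540, 1457724301, 241974707,
   460088756, 460066229, 1019278177, 1558279048, 1891878667, 1891885837, 1724095755, 1724093196,
   1863164980, 1863162933, 1661832755, 1191910826, 1191943214, 1500210569, 1500145070,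
   2030822698, 840353913, 597069392, 697608146, 697673302, 764850267, 306071930, 306137342,
   62132178, 62230230, 166995889, 1773512337, 204878073, 123346217, 1276063865, 1368082346,
   1368114734, 949805649, 414475218, 414573270, 231616827, 298731304, 1173034889, 1172969390,
   1703646793, 1703647018, 647273426, 647338582, 1723177617, 1888732747, 1888739917, 1720947276,
   301090729, 82974667, 1312370916, 1864737940, 1864735893, 694462355, 660904851, 794343779,
   2032525971, 1663405715, 954524625, 602181585, 978907492, 978897253, 1357072267, 1357079437,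
   1189289355, 1189286796, 258745780, 258743733, 57413555, 1908655913, 2026104075, 1732484393,
   1690539787, 1762502195, 1670221393, 1198136750, 840878458, 739684473, 205402490, 205467902,
   949346902, 777564516, 740209018]

def allBelow : ℕ → ℕ → (ℕ → Bool) → Bool
  | 0, c, P => P c
  | i + 1, c, P => allBelow i (2 * c) P && allBelow i (2 * c + 1) P

theorem allBelow_spec (P : ℕ → Bool) : ∀ (i c : ℕ), allBelow i c P = true →
    ∀ m, m < 2 ^ i → P (2 ^ i * c + m) = true := by
  intro i
  induction i with
  | zero => intro c h m hm; have : m = 0 := by omega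
            subst this; simpa [allBelow] using h
  | succ i ih =>
    intro c h m hm
    simp only [allBelow, Bool.and_eq_true] at h
    by_cases hlt : m < 2 ^ i
    · have := ih _ h.1 m hlt
      rwa [show 2 ^ i * (2 * c) + m = 2 ^ (i + 1) * c + m by ring] at this
    · have hm' : m - 2 ^ i < 2 ^ i := by rw [pow_succ] at hm; omega
      have := ih _ h.2 (m - 2 ^ i) hm'
      rwa [show 2 ^ i * (2 * c + 1) + (m - 2 ^ i) = 2 ^ (i + 1) * c + m by
        have : 2 ^ i ≤ m := by omega
        have e : 2 ^ i * (2 * c + 1) = 2 ^ (i + 1) * c + 2 ^ i := by ring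
        rw [e]; omega] at this

def phiC : ℕ := 10704

def final : Bool :=
  (fun R => allBelow 14 0 fun c => !properC c || R.testBit c) (run cert (2 ^ phiC))

set_option maxRecDepth 100000 in
theorem final_true : final = true := by decide +kernel

theorem reach4 (h : Fin 7 → ℕ) (hh : PJ 4 h) :
    Relation.ReflTransGen (StepJ 4) (dec phiC) h := by
  have b0 := hh.1 0
  have b1 := hh.1 1
  have b2 := hh.1 2
  have b3 := hh.1 3
  have b4 := hh.1 4
  have b5 := hh.1 5
  have b6 := hh.1 6
  obtain ⟨c, hc⟩ : ∃ c, c = h 0 + 4 * h 1 + 16 * h 2 + 64 * h 3 + 256 * h 4 + 1024 * h 5 +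
    4096 * h 6 := ⟨_, rfl⟩
  have hclt : c < 2 ^ 14 := by norm_num; omega
  have hdec : dec c = h := by
    have t0 : c / 4 ^ 0 % 4 = h 0 := by norm_num; omega
    have t1 : c / 4 ^ 1 % 4 = h 1 := by norm_num; omega
    have t2 : c / 4 ^ 2 % 4 = h 2 := by norm_num; omega
    have t3 : c / 4 ^ 3 % 4 = h 3 := by norm_num; omega
    have t4 : c / 4 ^ 4 % 4 = h 4 := by norm_num; omega
    have t5 : c / 4 ^ 5 % 4 = h 5 := by norm_num; omega
    have t6 : c / 4 ^ 6 % 4 = h 6 := by norm_num; omega
    funext v
    fin_cases v
    exacts [t0, t1, t2, t3, t4, t5, t6]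
  have h1 := allBelow_spec _ 14 0 final_true c hclt
  simp only [mul_zero, zero_add, Bool.or_eq_true, Bool.not_eq_true'] at h1
  have hpc : properC c = true := (properC_iff c).mpr (by rw [hdec]; exact hh)
  rw [hpc] at h1
  simp only [Bool.true_eq_false, false_or] at h1
  have h2 := run_sound phiC cert (2 ^ phiC) (fun c hc => by
    rw [Nat.testBit_two_pow, decide_eq_true_eq] at hc
    subst hc
    exact ⟨(properC_iff _).mp (by decide), .refl⟩) c h1
  rw [hdec] at h2
  exact h2.2

theorem StepJ_mono {j : ℕ} (hj : 4 ≤ j) {f g : Fin 7 → ℕ} (h : StepJ 4 f g) : StepJ j f g :=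
  ⟨⟨fun v => lt_of_lt_of_le (h.1.1 v) hj, h.1.2⟩, ⟨fun v => lt_of_lt_of_le (h.2.1.1 v) hj, h.2.1.2⟩,
    h.2.2⟩

/-- the spindle is `j`-mixing for every `j ≥ 4` -/
theorem reachJ {j : ℕ} (hj : 4 ≤ j) (h : Fin 7 → ℕ) (hh : PJ j h) :
    Relation.ReflTransGen (StepJ j) h (dec phiC) := by
  obtain ⟨h1, hh1, hlt1, hr1⟩ := stage1 hj _ h hh rfl
  obtain ⟨h2, hh2, hlt2, hr2⟩ := stage2 hj h1 hh1 hlt1
  have h3 := reach4 h2 ⟨hlt2, hh2.2⟩
  have h4 : Relation.ReflTransGen (StepJ j) (dec phiC) h2 := by
    clear hr2 hlt2 hh2
    induction h3 with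
    | refl => exact .refl
    | tail _ hs ih => exact .tail ih (StepJ_mono hj hs)
  exact (hr1.trans hr2).trans (reach_symm h4)

theorem not_three (h : Fin 7 → ℕ) (hh : PJ 3 h) : False := by
  have b0 := hh.1 0
  have b1 := hh.1 1
  have b2 := hh.1 2
  have b3 := hh.1 3
  have b4 := hh.1 4
  have b5 := hh.1 5
  have b6 := hh.1 6
  have e1 := hh.2 0 2 (by decide)
  have e2 := hh.2 0 4 (by decide)
  have e3 := hh.2 0 5 (by decide)
  have e4 := hh.2 0 6 (by decide)
  have e5 := hh.2 1 2 (by decide)
  have e6 := hh.2 1 3 (by decide)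
  have e7 := hh.2 1 6 (by decide)
  have e8 := hh.2 2 6 (by decide)
  have e9 := hh.2 3 4 (by decide)
  have e10 := hh.2 3 5 (by decide)
  have e11 := hh.2 4 5 (by decide)
  have h1 : h 1 = h 0 := by omega
  have h3 : h 3 = h 0 := by omega
  exact e6 (by rw [h1, h3])

/-! ### Colourings and rotations -/

/-- the relation between the colours of adjacent vertices -/
def Rel (k q x y : ℕ) : Prop := (x + q ≤ y ∧ y + q ≤ x + k) ∨ (y + q ≤ x ∧ x + q ≤ y + k)

theorem rel_iff (k q x y : ℕ) :
    ((q : ℤ) ≤ |(x : ℤ) - y| ∧ |(x : ℤ) - y| ≤ (k : ℤ) - q) ↔ Rel k q x y := by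
  unfold Rel
  rcases abs_cases ((x : ℤ) - y) with ⟨h1, h2⟩ | ⟨h1, h2⟩ <;> rw [h1] <;> omega

theorem col_iff {V : Type} {G : SimpleGraph V} {k q : ℕ} {f : V → ℕ} :
    IsColouring G k q f ↔ (∀ v, f v < k) ∧ ∀ u v, G.Adj u v → Rel k q (f u) (f v) := by
  unfold IsColouring
  simp only [rel_iff]

theorem Step.symm {V : Type} {G : SimpleGraph V} {k q : ℕ} {f g : V → ℕ} (h : Step G k q f g) :
    Step G k q g f := by
  obtain ⟨h1, h2, v, h3⟩ := h
  exact ⟨h2, h1, v, fun w hw => (h3 w hw).symm⟩

theorem path_symm {V : Type} {G : SimpleGraph V} {k q : ℕ} {f g : V → ℕ}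
    (h : Relation.ReflTransGen (Step G k q) f g) : Relation.ReflTransGen (Step G k q) g f := by
  induction h with
  | refl => exact .refl
  | tail _ h ih => exact .head h.symm ih

def rot (k x : ℕ) : ℕ := if x + 1 < k then x + 1 else 0

def unrot (k x : ℕ) : ℕ := if x = 0 then k - 1 else x - 1

theorem rot_unrot {k x : ℕ} (h : x < k) : rot k (unrot k x) = x := by
  unfold rot unrot
  split_ifs <;> omega

theorem rot_rel {k q x y : ℕ} (hx : x < k) (hy : y < k) (h : Rel k q x y) :
    Rel k q (rot k x) (rot k y) := by
  unfold Rel rot at *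
  split_ifs <;> omega

theorem unrot_rel {k q x y : ℕ} (hx : x < k) (hy : y < k) (h : Rel k q x y) :
    Rel k q (unrot k x) (unrot k y) := by
  unfold Rel unrot at *
  split_ifs <;> omega

theorem rot_col {V : Type} {G : SimpleGraph V} {k q : ℕ} {f : V → ℕ} (h : IsColouring G k q f) :
    IsColouring G k q fun v => rot k (f v) := by
  rw [col_iff] at *
  refine ⟨fun v => ?_, fun u v huv => rot_rel (h.1 u) (h.1 v) (h.2 u v huv)⟩
  have := h.1 v
  unfold rot
  split_ifs <;> omega

theorem unrot_col {V : Type} {G : SimpleGraph V} {k q : ℕ} {f : V → ℕ} (h : IsColouring G k q f) :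
    IsColouring G k q fun v => unrot k (f v) := by
  rw [col_iff] at *
  refine ⟨fun v => ?_, fun u v huv => unrot_rel (h.1 u) (h.1 v) (h.2 u v huv)⟩
  have := h.1 v
  unfold unrot
  split_ifs <;> omega

theorem rot_path {V : Type} {G : SimpleGraph V} {k q : ℕ} {f g : V → ℕ}
    (h : Relation.ReflTransGen (Step G k q) f g) :
    Relation.ReflTransGen (Step G k q) (fun v => rot k (f v)) fun v => rot k (g v) := by
  induction h with
  | refl => exact .refl
  | tail _ h ih =>
    obtain ⟨h1, h2, v, h3⟩ := h
    exact .tail ih ⟨rot_col h1, rot_col h2, v, fun w hw => by simp only [h3 w hw]⟩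

/-- if `T` can be rotated, and everything with colour `0` at `x₀` can be transformed into `T`, then
everything can be transformed into `T` -/
theorem all_reach {V : Type} {G : SimpleGraph V} {k q : ℕ} {T : V → ℕ} (x₀ : V)
    (hT : Relation.ReflTransGen (Step G k q) T fun v => rot k (T v))
    (h0 : ∀ f, IsColouring G k q f → f x₀ = 0 → Relation.ReflTransGen (Step G k q) f T) :
    ∀ (a : ℕ) (f : V → ℕ), IsColouring G k q f → f x₀ = a →
      Relation.ReflTransGen (Step G k q) f T := by
  intro a
  induction a with
  | zero => exact h0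
  | succ a ih =>
    intro f hf hfa
    have h1 := ih _ (unrot_col hf) (by simp only [unrot, hfa]; simp)
    have h2 := rot_path h1
    have h3 : (fun v => rot k (unrot k (f v))) = f := funext fun v => rot_unrot (hf.1 v)
    rw [h3] at h2
    exact h2.trans (path_symm hT)

theorem to_zero {V : Type} {G : SimpleGraph V} {k q : ℕ} (x₀ : V) :
    ∀ (a : ℕ) (f : V → ℕ), IsColouring G k q f → f x₀ = a →
      ∃ f', IsColouring G k q f' ∧ f' x₀ = 0 := by
  intro a
  induction a with
  | zero => exact fun f hf h => ⟨f, hf, h⟩
  | succ a ih =>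
    intro f hf hfa
    exact ih _ (unrot_col hf) (by simp only [unrot, hfa]; simp)

/-! ### The cone -/

theorem cone_col {V : Type} {H : SimpleGraph V} {k q : ℕ} {f : Option V → ℕ} :
    IsColouring (cone H) k q f ↔ (f none < k ∧ ∀ v, f (some v) < k) ∧
      (∀ v, Rel k q (f none) (f (some v))) ∧
        ∀ u v, H.Adj u v → Rel k q (f (some u)) (f (some v)) := by
  rw [col_iff]
  constructor
  · rintro ⟨h1, h2⟩
    exact ⟨⟨h1 _, fun v => h1 _⟩, fun v => h2 none (some v) trivial,
      fun u v huv => h2 (some u) (some v) huv⟩
  · rintro ⟨⟨h1, h2⟩, h3, h4⟩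
    refine ⟨fun x => ?_, fun x y hxy => ?_⟩
    · cases x with
      | none => exact h1
      | some v => exact h2 v
    · match x, y with
      | none, none => exact absurd hxy (fun h => h)
      | none, some v => exact h3 v
      | some v, none =>
        have := h3 v
        unfold Rel at *
        omega
      | some u, some v => exact h4 u v hxy

theorem range_of_zero {V : Type} {H : SimpleGraph V} {k q : ℕ} (hq : 0 < q) {f : Option V → ℕ}
    (hf : IsColouring (cone H) k q f) (h0 : f none = 0) (v : V) :
    q ≤ f (some v) ∧ f (some v) + q ≤ k := by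
  have := (cone_col.mp hf).2.1 v
  rw [h0] at this
  unfold Rel at this
  omega

/-- the colours of the base can be moved down to multiples of `q` -/
theorem floor_path {k q : ℕ} (hq : 0 < q) : ∀ (n : ℕ) (f : Option (Fin 7) → ℕ),
    IsColouring (cone spindle) k q f → f none = 0 → ∑ v, f (some v) = n →
    ∃ g, IsColouring (cone spindle) k q g ∧ g none = 0 ∧ (∀ v, q ∣ g (some v)) ∧
      Relation.ReflTransGen (Step (cone spindle) k q) f g := by
  intro n
  induction n using Nat.strong_induction_on with
  | _ n ih =>
    intro f hf h0 hn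
    by_cases hall : ∀ v, q ∣ f (some v)
    · exact ⟨f, hf, h0, hall, .refl⟩
    · push Not at hall
      obtain ⟨v0, hv0⟩ := hall
      obtain ⟨v, hv, hmin⟩ := Finset.exists_min_image
        (Finset.univ.filter fun v => ¬ q ∣ f (some v)) (fun v => f (some v)) ⟨v0, by simp [hv0]⟩
      simp only [Finset.mem_filter, Finset.mem_univ, true_and] at hv hmin
      have hr := range_of_zero hq hf h0
      have hx1 : f (some v) / q * q ≤ f (some v) := Nat.div_mul_le_self _ _
      have hx2 : f (some v) / q * q < f (some v) := by
        refine lt_of_le_of_ne hx1 fun h => hv ⟨f (some v) / q, ?_⟩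
        rw [mul_comm]; exact h.symm
      have hx3 : q ≤ f (some v) / q * q := by
        have : 1 ≤ f (some v) / q := (Nat.le_div_iff_mul_le hq).mpr (by have := (hr v).1; omega)
        nlinarith
      obtain ⟨hc1, hc2, hc3⟩ := cone_col.mp hf
      have hnb : ∀ w, spindle.Adj v w → Rel k q (f (some v) / q * q) (f (some w)) := by
        intro w hw
        have hrel := hc3 v w hw
        have hrw := hr w
        have hrv := hr v
        unfold Rel at hrel ⊢
        rcases hrel with hrel | hrel
        · left; omega
        · right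
          have hdw : q ∣ f (some w) := by
            by_contra hdw
            have := hmin w hdw
            omega
          obtain ⟨m, hm⟩ := hdw
          have h1 : m + 1 ≤ f (some v) / q := by
            rw [Nat.le_div_iff_mul_le hq]
            have : (m + 1) * q = q * m + q := by ring
            omega
          have h2 : (m + 1) * q ≤ f (some v) / q * q := Nat.mul_le_mul_right q h1
          have h3 : (m + 1) * q = q * m + q := by ring
          omega
      have hg : IsColouring (cone spindle) k q
          (Function.update f (some v) (f (some v) / q * q)) := by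
        rw [cone_col]
        refine ⟨⟨by simpa using hc1.1, fun w => ?_⟩, fun w => ?_, fun u w huw => ?_⟩
        · by_cases hw : w = v
          · subst hw
            have := hc1.2 w
            simp only [Function.update_self]
            omega
          · have : (some w : Option (Fin 7)) ≠ some v := fun h => hw (Option.some.inj h)
            rw [Function.update_of_ne this]
            exact hc1.2 w
        · have hne : (none : Option (Fin 7)) ≠ some v := by simp
          rw [Function.update_of_ne hne, h0]
          by_cases hw : w = v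
          · subst hw
            have := hr w
            simp only [Function.update_self]
            unfold Rel
            omega
          · have : (some w : Option (Fin 7)) ≠ some v := fun h => hw (Option.some.inj h)
            rw [Function.update_of_ne this]
            have := hr w
            unfold Rel
            omega
        · by_cases hu : u = v
          · subst hu
            have hw : w ≠ u := huw.ne'
            have : (some w : Option (Fin 7)) ≠ some u := fun h => hw (Option.some.inj h)
            rw [Function.update_of_ne this, Function.update_self]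
            exact hnb w huw
          · have hu' : (some u : Option (Fin 7)) ≠ some v := fun h => hu (Option.some.inj h)
            rw [Function.update_of_ne hu']
            by_cases hw : w = v
            · subst hw
              rw [Function.update_self]
              have := hnb u huw.symm
              unfold Rel at *
              omega
            · have : (some w : Option (Fin 7)) ≠ some v := fun h => hw (Option.some.inj h)
              rw [Function.update_of_ne this]
              exact hc3 u w huw
      have hlt : ∑ w, Function.update f (some v) (f (some v) / q * q) (some w) < n := by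
        rw [← hn]
        apply Finset.sum_lt_sum
        · intro w _
          by_cases hw : w = v
          · subst hw
            rw [Function.update_self]; exact hx1
          · have : (some w : Option (Fin 7)) ≠ some v := fun h => hw (Option.some.inj h)
            rw [Function.update_of_ne this]
        · exact ⟨v, Finset.mem_univ _, by rw [Function.update_self]; exact hx2⟩
      obtain ⟨g, hg1, hg2, hg3, hg4⟩ := ih _ hlt _ hg
        (by rw [Function.update_of_ne (by simp)]; exact h0) rfl
      refine ⟨g, hg1, hg2, hg3, .head ⟨hf, hg, some v, fun w hw => ?_⟩ hg4⟩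
      rw [Function.update_of_ne hw]

/-- the colouring with the levels `h` -/
def Lv (q : ℕ) (h : Fin 7 → ℕ) : Option (Fin 7) → ℕ
  | none => 0
  | some v => q * (h v + 1)

theorem Lv_col {k q j : ℕ} (hq : 0 < q) (hj : q * (j + 1) ≤ k) {h : Fin 7 → ℕ} (hh : PJ j h) :
    IsColouring (cone spindle) k q (Lv q h) := by
  have key : ∀ v, q ≤ q * (h v + 1) ∧ q * (h v + 1) + q ≤ k := by
    intro v
    have h1 := hh.1 v
    have h2 : q * (h v + 1 + 1) ≤ q * (j + 1) := Nat.mul_le_mul_left q (by omega)
    have h3 : q * (h v + 1 + 1) = q * (h v + 1) + q := by ring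
    have h4 : q * (h v + 1) = q * h v + q := by ring
    have h5 : 0 ≤ q * h v := Nat.zero_le _
    omega
  rw [cone_col]
  refine ⟨⟨?_, fun v => ?_⟩, fun v => ?_, fun u v huv => ?_⟩
  · have := key 0
    simp only [Lv]; omega
  · have := key v
    simp only [Lv]; omega
  · have := key v
    simp only [Lv, Rel]; omega
  · have k1 := key u
    have k2 := key v
    have hne := hh.2 u v huv
    simp only [Lv, Rel]
    rcases lt_or_gt_of_ne hne with hlt | hlt
    · have : q * (h u + 1 + 1) ≤ q * (h v + 1) := Nat.mul_le_mul_left q (by omega)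
      have h3 : q * (h u + 1 + 1) = q * (h u + 1) + q := by ring
      omega
    · have : q * (h v + 1 + 1) ≤ q * (h u + 1) := Nat.mul_le_mul_left q (by omega)
      have h3 : q * (h v + 1 + 1) = q * (h v + 1) + q := by ring
      omega

theorem Lv_path {k q j : ℕ} (hq : 0 < q) (hj : q * (j + 1) ≤ k) {h h' : Fin 7 → ℕ}
    (hp : Relation.ReflTransGen (StepJ j) h h') :
    Relation.ReflTransGen (Step (cone spindle) k q) (Lv q h) (Lv q h') := by
  induction hp with
  | refl => exact .refl
  | tail _ hs ih =>
    obtain ⟨h1, h2, v, h3⟩ := hs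
    refine .tail ih ⟨Lv_col hq hj h1, Lv_col hq hj h2, some v, fun w hw => ?_⟩
    cases w with
    | none => rfl
    | some w =>
      have : w ≠ v := fun h => hw (by rw [h])
      simp only [Lv, h3 w this]

/-- levels of a colouring with colour `0` at the apex -/
theorem levels {k q : ℕ} (hq : 0 < q) {f : Option (Fin 7) → ℕ}
    (hf : IsColouring (cone spindle) k q f) (h0 : f none = 0) :
    PJ (k / q - 1) fun v => f (some v) / q - 1 := by
  have hr := range_of_zero hq hf h0
  have h1 : ∀ v, 1 ≤ f (some v) / q := fun v => (Nat.le_div_iff_mul_le hq).mpr (by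
    have := (hr v).1; omega)
  have h2 : ∀ v, f (some v) / q + 1 ≤ k / q := fun v => by
    have : (f (some v) + q) / q ≤ k / q := Nat.div_le_div_right (hr v).2
    rwa [Nat.add_div_right _ hq] at this
  refine ⟨fun v => ?_, fun u v huv => ?_⟩
  · have := h1 v
    have := h2 v
    simp only
    omega
  · have h3 := (cone_col.mp hf).2.2 u v huv
    have hu := h1 u
    have hv := h1 v
    simp only
    unfold Rel at h3
    rcases h3 with h3 | h3
    · have : (f (some u) + q) / q ≤ f (some v) / q := Nat.div_le_div_right h3.1
      rw [Nat.add_div_right _ hq] at this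
      omega
    · have : (f (some v) + q) / q ≤ f (some u) / q := Nat.div_le_div_right h3.1
      rw [Nat.add_div_right _ hq] at this
      omega

theorem phi_PJ : PJ 4 (dec phiC) := (properC_iff _).mp (by decide)

theorem zero_reach {k q : ℕ} (hq : 0 < q) (hk : 5 * q < k) (f : Option (Fin 7) → ℕ)
    (hf : IsColouring (cone spindle) k q f) (h0 : f none = 0) :
    Relation.ReflTransGen (Step (cone spindle) k q) f (Lv q (dec phiC)) := by
  obtain ⟨g, hg, hg0, hgd, hfg⟩ := floor_path hq _ f hf h0 rfl
  have hl := levels hq hg hg0
  have hkq : 5 ≤ k / q := (Nat.le_div_iff_mul_le hq).mpr hk.le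
  have hj : q * (k / q - 1 + 1) ≤ k := by
    rw [Nat.sub_add_cancel (by omega)]
    exact Nat.mul_div_le k q
  have hgL : g = Lv q fun v => g (some v) / q - 1 := by
    funext x
    cases x with
    | none => exact hg0
    | some v =>
      have h1 := (range_of_zero hq hg hg0 v).1
      have h2 : 1 ≤ g (some v) / q := (Nat.le_div_iff_mul_le hq).mpr (by omega)
      simp only [Lv]
      rw [Nat.sub_add_cancel h2]
      exact (Nat.mul_div_cancel' (hgd v)).symm
  have h3 := Lv_path hq hj (reachJ (by omega) _ hl)
  rw [← hgL] at h3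
  exact hfg.trans h3

/-- the colouring in which the vertices of `S` have been moved up -/
def TS (q : ℕ) (S : Finset (Fin 7)) : Option (Fin 7) → ℕ
  | none => 0
  | some v => q * (dec phiC v + 1) + if v ∈ S then 1 else 0

theorem TS_col {k q : ℕ} (hq : 0 < q) (hk : 5 * q < k) (S : Finset (Fin 7))
    (hS : ∀ v ∈ S, ∀ w, dec phiC v < dec phiC w → w ∈ S) :
    IsColouring (cone spindle) k q (TS q S) := by
  have key : ∀ v, q ≤ q * (dec phiC v + 1) ∧ q * (dec phiC v + 1) ≤ 4 * q := by
    intro v
    have h1 := phi_PJ.1 v
    have h2 : q * (dec phiC v + 1) ≤ q * 4 := Nat.mul_le_mul_left q (by omega)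
    have h4 : q * (dec phiC v + 1) = q * dec phiC v + q := by ring
    have h5 : 0 ≤ q * dec phiC v := Nat.zero_le _
    omega
  have main : ∀ u v, dec phiC u < dec phiC v → Rel k q (TS q S (some u)) (TS q S (some v)) := by
    intro u v hlt
    have k1 := key u
    have k2 := key v
    have h2 : q * (dec phiC u + 1 + 1) ≤ q * (dec phiC v + 1) := Nat.mul_le_mul_left q (by omega)
    have h3 : q * (dec phiC u + 1 + 1) = q * (dec phiC u + 1) + q := by ring
    have h4 : u ∈ S → v ∈ S := fun h => hS u h v hlt
    simp only [TS, Rel]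
    by_cases hu : u ∈ S
    · simp only [hu, h4 hu, if_true]; omega
    · simp only [hu, if_false]; split_ifs <;> omega
  rw [cone_col]
  refine ⟨⟨?_, fun v => ?_⟩, fun v => ?_, fun u v huv => ?_⟩
  · simp only [TS]; omega
  · have := key v
    simp only [TS]; split_ifs <;> omega
  · have := key v
    simp only [TS, Rel]; split_ifs <;> omega
  · rcases lt_or_gt_of_ne (phi_PJ.2 u v huv) with h | h
    · exact main u v h
    · have := main v u h
      unfold Rel at *
      omega

theorem TS_step {k q : ℕ} (hq : 0 < q) (hk : 5 * q < k) (S : Finset (Fin 7)) (x : Fin 7)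
    (hS : ∀ v ∈ S, ∀ w, dec phiC v < dec phiC w → w ∈ S)
    (hS' : ∀ v ∈ insert x S, ∀ w, dec phiC v < dec phiC w → w ∈ insert x S) :
    Step (cone spindle) k q (TS q S) (TS q (insert x S)) := by
  refine ⟨TS_col hq hk S hS, TS_col hq hk _ hS', some x, fun w hw => ?_⟩
  cases w with
  | none => rfl
  | some w =>
    have : w ≠ x := fun h => hw (by rw [h])
    simp only [TS, Finset.mem_insert, this, false_or]

theorem rotate {k q : ℕ} (hq : 0 < q) (hk : 5 * q < k) :
    Relation.ReflTransGen (Step (cone spindle) k q) (Lv q (dec phiC))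
      fun v => rot k (Lv q (dec phiC) v) := by
  have h0 : Lv q (dec phiC) = TS q ∅ := by
    funext x
    cases x with
    | none => rfl
    | some v => simp [Lv, TS]
  have s1 := TS_step hq hk ∅ 3 (by decide) (by decide)
  have s2 := TS_step hq hk {3} 5 (by decide) (by decide)
  have s3 := TS_step hq hk {5, 3} 6 (by decide) (by decide)
  have s4 := TS_step hq hk {6, 5, 3} 2 (by decide) (by decide)
  have s5 := TS_step hq hk {2, 6, 5, 3} 4 (by decide) (by decide)
  have s6 := TS_step hq hk {4, 2, 6, 5, 3} 0 (by decide) (by decide)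
  have s7 := TS_step hq hk {0, 4, 2, 6, 5, 3} 1 (by decide) (by decide)
  have hLc : IsColouring (cone spindle) k q (Lv q (dec phiC)) :=
    Lv_col hq (j := 4) (by omega) phi_PJ
  have s8 : Step (cone spindle) k q (TS q {1, 0, 4, 2, 6, 5, 3})
      fun v => rot k (Lv q (dec phiC) v) := by
    refine ⟨s7.2.1, rot_col hLc, none, fun w hw => ?_⟩
    cases w with
    | none => exact absurd rfl hw
    | some v =>
      have hv : v ∈ ({1, 0, 4, 2, 6, 5, 3} : Finset (Fin 7)) := by revert v; decide
      have h1 := phi_PJ.1 v
      have h2 : q * (dec phiC v + 1) ≤ q * 4 := Nat.mul_le_mul_left q (by omega)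
      simp only [TS, Lv, rot, hv, if_true]
      rw [if_pos (by omega)]
  rw [h0] at s8 ⊢
  exact ((((((((Relation.ReflTransGen.single s1).tail s2).tail s3).tail s4).tail s5).tail s6).tail
    s7).tail s8)

theorem mixing {k q : ℕ} (hq : 0 < q) (hk : 5 * q < k) : IsMixing (cone spindle) k q := by
  intro f g hf hg
  have h := all_reach (none : Option (Fin 7)) (rotate hq hk) (zero_reach hq hk)
  exact (h _ f hf rfl).trans (path_symm (h _ g hg rfl))

theorem five_le {k q : ℕ} (hq : 0 < q) {f : Option (Fin 7) → ℕ}
    (hf : IsColouring (cone spindle) k q f) : 5 * q ≤ k := by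
  by_contra hlt
  push Not at hlt
  obtain ⟨g, hg, hg0⟩ := to_zero (none : Option (Fin 7)) _ f hf rfl
  have hl := levels hq hg hg0
  have : k / q < 5 := (Nat.div_lt_iff_lt_mul hq).mpr hlt
  exact not_three _ ⟨fun v => lt_of_lt_of_le (hl.1 v) (by omega), hl.2⟩

theorem exists_col {k q : ℕ} (hq : 0 < q) (hk : 5 * q ≤ k) :
    IsColouring (cone spindle) k q (Lv q (dec phiC)) :=
  Lv_col hq (j := 4) (by omega) phi_PJ

theorem step_none {f g : Option (Fin 7) → ℕ} (h : Step (cone spindle) 5 1 f g) :
    f none = g none := by
  by_contra hne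
  obtain ⟨hf, hg, v, hv⟩ := h
  have hv0 : v = none := by
    by_contra hv0
    exact hne (hv none fun h => hv0 h.symm)
  subst hv0
  have hs : ∀ w : Fin 7, f (some w) = g (some w) := fun w => hv (some w) (by simp)
  obtain ⟨hf1, hf2, hf3⟩ := cone_col.mp hf
  obtain ⟨hg1, hg2, hg3⟩ := cone_col.mp hg
  refine not_three (fun w => f (some w) - (if f none < f (some w) then 1 else 0) -
    (if g none < f (some w) then 1 else 0)) ⟨fun w => ?_, fun u w huw => ?_⟩
  · have a1 := hf1.1
    have a2 := hf1.2 w
    have a3 := hf2 w
    have a4 := hg1.1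
    have a6 := hg2 w
    rw [← hs w] at a6
    unfold Rel at a3 a6
    simp only
    split_ifs <;> omega
  · have a2 := hf1.2 w
    have a3 := hf2 w
    have a6 := hg2 w
    rw [← hs w] at a6
    have b2 := hf1.2 u
    have b3 := hf2 u
    have b6 := hg2 u
    rw [← hs u] at b6
    have c := hf3 u w huw
    unfold Rel at a3 a6 b3 b6 c
    simp only
    split_ifs <;> omega

theorem not_mixing : ¬ IsMixing (cone spindle) 5 1 := by
  intro h
  have hc := exists_col (k := 5) (q := 1) (by norm_num) (by norm_num)
  have hp := h _ _ hc (rot_col hc)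
  have inv : ∀ g, Relation.ReflTransGen (Step (cone spindle) 5 1) (Lv 1 (dec phiC)) g →
      g none = 0 := by
    intro g hg
    induction hg with
    | refl => rfl
    | tail _ hs ih => rw [← step_none hs]; exact ih
  have := inv _ hp
  simp [rot, Lv] at this

theorem not_bipartite : ¬ (cone spindle).IsBipartite := by
  rintro ⟨c⟩
  have h1 : c none ≠ c (some 2) := c.valid (show (cone spindle).Adj none (some 2) from trivial)
  have h2 : c none ≠ c (some 6) := c.valid (show (cone spindle).Adj none (some 6) from trivial)
  have h3 : c (some 2) ≠ c (some 6) :=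
    c.valid (show (cone spindle).Adj (some 2) (some 6) from (by decide : spindle.Adj 2 6))
  omega

theorem chi_eq : circularChromaticNumber (cone spindle) = 5 := by
  unfold circularChromaticNumber
  refine IsLeast.csInf_eq ⟨⟨5, 1, by norm_num, by norm_num, by norm_num, _,
    exists_col (by norm_num) (by norm_num)⟩, ?_⟩
  rintro x ⟨k, q, hk, hq, rfl, f, hf⟩
  have h := five_le hq hf
  rw [le_div_iff₀ (by exact_mod_cast hq)]
  exact_mod_cast h

theorem threshold_eq : circularMixingThreshold (cone spindle) = 5 := by
  unfold circularMixingThreshold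
  have hlow : ∀ x ∈ {x : ℝ | ∃ r : ℚ, x = r ∧ ∀ k q : ℕ, 0 < k → 0 < q →
      r ≤ (k : ℚ) / q → IsMixing (cone spindle) k q}, (5 : ℝ) ≤ x := by
    rintro x ⟨r, rfl, hr⟩
    by_contra hlt
    push Not at hlt
    have h5 : r < 5 := by exact_mod_cast hlt
    exact not_mixing (hr 5 1 (by norm_num) (by norm_num) (by norm_num; exact h5.le))
  have hmem : ∀ r : ℚ, 5 < r → (r : ℝ) ∈ {x : ℝ | ∃ r : ℚ, x = r ∧ ∀ k q : ℕ, 0 < k → 0 < q →
      r ≤ (k : ℚ) / q → IsMixing (cone spindle) k q} := by
    intro r hr
    refine ⟨r, rfl, fun k q _ hq hkq => mixing hq ?_⟩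
    have h1 : (5 : ℚ) < (k : ℚ) / q := lt_of_lt_of_le hr hkq
    rw [lt_div_iff₀ (by exact_mod_cast hq)] at h1
    exact_mod_cast h1
  refine le_antisymm ?_ (le_csInf ⟨_, hmem 6 (by norm_num)⟩ hlow)
  refine le_of_forall_pos_le_add fun ε hε => ?_
  obtain ⟨r, hr1, hr2⟩ := exists_rat_btwn (show (5 : ℝ) < 5 + ε by linarith)
  have hr1' : (5 : ℚ) < r := by exact_mod_cast hr1
  exact (csInf_le ⟨5, hlow⟩ (hmem r hr1')).trans hr2.le

/-- The cone over the Moser spindle is a non-bipartite graph whose circular chromatic number and
circular mixing threshold are both equal to `5`. Moreover it has a `(k, q)`-colouring and is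
`(k, q)`-mixing whenever `k / q > 5`, it has no `(k, q)`-colouring if `k / q < 5`, and it is not
`(5, 1)`-mixing. -/
theorem result : ¬ (cone spindle).IsBipartite ∧
    circularMixingThreshold (cone spindle) = circularChromaticNumber (cone spindle) ∧
    circularChromaticNumber (cone spindle) = 5 ∧
    (∀ k q : ℕ, 0 < q → 5 * q < k →
      (∃ f, IsColouring (cone spindle) k q f) ∧ IsMixing (cone spindle) k q) ∧
    (∀ k q : ℕ, 0 < q → k < 5 * q → ¬ ∃ f, IsColouring (cone spindle) k q f) ∧
    ¬ IsMixing (cone spindle) 5 1 := by
  refine ⟨not_bipartite, by rw [threshold_eq, chi_eq], chi_eq, fun k q hq hk =>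
    ⟨⟨_, exists_col hq hk.le⟩, mixing hq hk⟩, ?_, not_mixing⟩
  rintro k q hq hk ⟨f, hf⟩
  exact absurd (five_le hq hf) (by omega)

end Pool.Agent.Results.MP_3baeb2_co.ConeOverSpindle
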